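import Pool.Agent.N206.CG.Stm2

/-!
Project CG (MP_216434_al, helper206), leaf CG/HR: rules for the subgroup `H`.
-/

namespace Pool.Agent.N341.CG

open Classical Pool.Agent.N206.CG

variable {L : Loc} (S : Sys L)

theorem hh_unf (n : ℕ) (b : L.B) (h : S.D n) :
    S.HH n b h ↔ S.root n h = 1 ∧ S.HH (n + 1) b (S.sec n h (L.z n)) ∧
      ∀ x ∈ L.X n, S.root (n + 1) (S.sec n h x) = L.rho (n + 1) b := by
  constructor
  · rintro ⟨s, h0, hs⟩
    have h1 := hs n le_rfl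
    rw [h0] at h1
    refine ⟨h1.1, ⟨s, h1.2.1, fun m hm => hs m (by omega)⟩, h1.2.2⟩
  · rintro ⟨h1, ⟨s, h2, h3⟩, h4⟩
    refine ⟨Function.update s n h, by simp, ?_⟩
    intro m hm
    by_cases hmn : m = n
    · subst hmn
      have hne : m + 1 ≠ m := by omega
      simp only [Function.update_self, Function.update_of_ne hne]
      exact ⟨h1, h2, h4⟩
    · have hne : m + 1 ≠ n := by omega
      simp only [Function.update_of_ne hmn, Function.update_of_ne hne]
      exact h3 m (by omega)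

theorem hh_one (n : ℕ) : S.HH n 1 1 := by
  refine ⟨fun _ => 1, rfl, ?_⟩
  intro m _
  refine ⟨map_one _, (S.sec_one m _).symm, ?_⟩
  intro x _
  simp [S.sec_one]

theorem hh_mul (n : ℕ) (b b' : L.B) (h h' : S.D n) (H : S.HH n b h) (H' : S.HH n b' h') :
    S.HH n (b * b') (h * h') := by
  obtain ⟨s, h0, hs⟩ := H
  obtain ⟨s', h0', hs'⟩ := H'
  refine ⟨fun m => s m * s' m, by simp [h0, h0'], ?_⟩
  intro m hm
  obtain ⟨a1, a2, a3⟩ := hs m hm
  obtain ⟨c1, c2, c3⟩ := hs' m hm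
  refine ⟨by simp [a1, c1], ?_, ?_⟩
  · simp only []
    rw [S.sec_mul, c1, Equiv.Perm.one_apply, ← a2, ← c2]
  · intro x hx
    simp only []
    rw [S.sec_mul, c1, Equiv.Perm.one_apply, map_mul, a3 x hx, c3 x hx, map_mul]

theorem hh_inv (n : ℕ) (b : L.B) (h : S.D n) (H : S.HH n b h) : S.HH n b⁻¹ h⁻¹ := by
  obtain ⟨s, h0, hs⟩ := H
  refine ⟨fun m => (s m)⁻¹, by simp [h0], ?_⟩
  intro m hm
  obtain ⟨a1, a2, a3⟩ := hs m hm
  refine ⟨by simp [a1], ?_, ?_⟩
  · simp only []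
    rw [S.sec_inv, a1, inv_one, Equiv.Perm.one_apply, ← a2]
  · intro x hx
    simp only []
    rw [S.sec_inv, a1, inv_one, Equiv.Perm.one_apply, map_inv, a3 x hx, map_inv]

theorem hh_sp (n : ℕ) (b : L.B) : S.HH n b (S.sp n b) := by
  refine ⟨fun m => S.sp m b, rfl, ?_⟩
  intro m _
  refine ⟨S.root_sp m b, (S.sec_sp_z m b).symm, ?_⟩
  intro x hx
  simp only []
  rw [S.sec_sp_X m b x hx, S.root_rt]

theorem hh_uniq (n : ℕ) (b b' : L.B) (h : S.D n) (H : S.HH n b h) (H' : S.HH n b' h) :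
    b = b' := by
  obtain ⟨s, h0, hs⟩ := H
  obtain ⟨s', h0', hs'⟩ := H'
  have key : ∀ m, n ≤ m → s m = s' m := by
    intro m hm
    induction m, hm using Nat.le_induction with
    | base => rw [h0, h0']
    | succ m hm ih => rw [(hs m hm).2.1, (hs' m hm).2.1, ih]
  have h1 : ∀ m, n + 1 ≤ m → L.rho m (b * b'⁻¹) = 1 := by
    intro m hm
    obtain ⟨k, rfl⟩ : ∃ k, m = k + 1 := ⟨m - 1, by omega⟩
    have hk : n ≤ k := by omega
    obtain ⟨x, hx, _⟩ := L.X_two k
    have e1 := (hs k hk).2.2 x hx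
    have e2 := (hs' k hk).2.2 x hx
    rw [key k hk] at e1
    rw [map_mul, map_inv, ← e1, ← e2, mul_inv_cancel]
  have h2 := L.rho_inj (n + 1) _ h1
  exact mul_inv_eq_one.mp h2

/-- the subgroup of all `h` with `HH 0 b h` for some `b` -/
def hsub : Subgroup (S.D 0) where
  carrier := {h | ∃ b, S.HH 0 b h}
  one_mem' := ⟨1, hh_one S 0⟩
  mul_mem' := by
    rintro a c ⟨b, hb⟩ ⟨b', hb'⟩
    exact ⟨b * b', hh_mul S 0 b b' a c hb hb'⟩
  inv_mem' := by
    rintro a ⟨b, hb⟩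
    exact ⟨b⁻¹, hh_inv S 0 b a hb⟩

theorem hh_mem (h : S.D 0) : h ∈ S.Hs ↔ ∃ b, S.HH 0 b h := by
  have e : S.Hs = hsub S := by
    unfold Sys.Hs
    exact Subgroup.closure_eq (hsub S)
  rw [e]
  exact Iff.rfl

theorem hh_lam (n : ℕ) (x : L.E n) (d : S.D (n + 1)) (hz : x ≠ L.z n) (hX : x ∉ L.X n) :
    S.HH n 1 (S.lam n x d) := by
  rw [hh_unf]
  refine ⟨S.root_lam n x d, ?_, ?_⟩
  · rw [S.sec_lam_ne n x d _ (Ne.symm hz)]
    exact hh_one S (n + 1)
  · intro y hy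
    have hne : y ≠ x := by
      rintro rfl
      exact hX hy
    rw [S.sec_lam_ne n x d _ hne, map_one, map_one]

theorem hh_lamz (n : ℕ) (b : L.B) (h : S.D (n + 1)) (H : S.HH (n + 1) b h) :
    ∃ h', S.HH n b h' ∧ S.sec n h' (L.z n) = h := by
  have hr : L.rho (n + 1) b ∈ L.P (n + 1) := by
    rw [← L.rho_range (n + 1)]
    exact ⟨b, rfl⟩
  refine ⟨S.mkk n (fun y => if y = L.z n then h else if y ∈ L.X n then
    S.rt (n + 1) ⟨L.rho (n + 1) b, hr⟩ else 1) 1, ?_, ?_⟩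
  · rw [hh_unf]
    refine ⟨?_, ?_, ?_⟩
    · rw [S.root_mk]; rfl
    · rw [S.sec_mk, if_pos rfl]
      exact H
    · intro x hx
      have hne : x ≠ L.z n := by
        rintro rfl
        exact L.z_not n hx
      rw [S.sec_mk, if_neg hne, if_pos hx, S.root_rt]
  · rw [S.sec_mk, if_pos rfl]

theorem hh_jay (n : ℕ) (b : L.B) (h : S.D n) (H : S.HH n b h) :
    S.HH n (L.jB b) (S.jay n h) := by
  obtain ⟨s, h0, hs⟩ := H
  refine ⟨fun m => S.jay m (s m), by simp [h0], ?_⟩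
  intro m hm
  obtain ⟨a1, a2, a3⟩ := hs m hm
  refine ⟨?_, ?_, ?_⟩
  · simp only []
    rw [S.root_jay, a1, mul_one, mul_inv_cancel]
  · simp only []
    have e := S.sec_jay m (s m) (L.z m)
    rw [L.J_z] at e
    rw [e, ← a2]
  · intro x hx
    simp only []
    have hx' : L.J m x ∈ L.X m := (L.J_X m x).mp hx
    have hJ : L.J m (L.J m x) = x := by
      have := congrArg (fun g : Equiv.Perm (L.E m) => g x) (L.J_sq m)
      simpa using this
    have e := S.sec_jay m (s m) (L.J m x)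
    rw [hJ] at e
    rw [e, S.root_jay, a3 _ hx', L.J_rho]

theorem hh_jay' (b : L.B) (h : S.D 0) (H : S.HH 0 b (S.jay 0 h)) :
    S.HH 0 (L.jB.symm b) h := by
  obtain ⟨s, h0, hs⟩ := H
  refine ⟨fun m => (S.jay m).symm (s m), by simp [h0], ?_⟩
  intro m hm
  obtain ⟨a1, a2, a3⟩ := hs m hm
  have hroot : ∀ k (d : S.D k), S.root k ((S.jay k).symm d) = (L.J k)⁻¹ * S.root k d * L.J k := by
    intro k d
    have e := S.root_jay k ((S.jay k).symm d)
    rw [MulEquiv.apply_symm_apply] at e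
    rw [e]
    group
  have hsec : ∀ x, S.sec m (s m) (L.J m x) =
      S.jay (m + 1) (S.sec m ((S.jay m).symm (s m)) x) := by
    intro x
    have e := S.sec_jay m ((S.jay m).symm (s m)) x
    rw [MulEquiv.apply_symm_apply] at e
    exact e
  refine ⟨?_, ?_, ?_⟩
  · simp only []
    rw [hroot, a1]
    group
  · simp only []
    have e := hsec (L.z m)
    rw [L.J_z, ← a2] at e
    rw [e, MulEquiv.symm_apply_apply]
  · intro x hx
    simp only []
    have hx' : L.J m x ∈ L.X m := (L.J_X m x).mp hx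
    have e1 := a3 _ hx'
    rw [hsec x, S.root_jay] at e1
    have e2 := L.J_rho (m + 1) (L.jB.symm b)
    rw [MulEquiv.apply_symm_apply] at e2
    have e3 := e1.trans e2.symm
    exact mul_left_cancel (mul_right_cancel e3)

theorem t_HR {L : Loc} (S : Sys L) : HRules S where
  mem := hh_mem S
  unf := hh_unf S
  one := hh_one S
  mul := hh_mul S
  inv := hh_inv S
  sp := hh_sp S
  uniq := hh_uniq S
  lam := hh_lam S
  lamz := hh_lamz S
  jay := hh_jay S
  jmem := by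
    intro h
    rw [hh_mem, hh_mem]
    constructor
    · rintro ⟨b, hb⟩
      exact ⟨_, hh_jay S 0 b h hb⟩
    · rintro ⟨b, hb⟩
      exact ⟨_, hh_jay' S b h hb⟩

end Pool.Agent.N341.CG
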